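import Pool.Agent.Lib.MP_524519_ag.DU5.TE.Iface
import Pool.Agent.Lib.MP_524519_ag.DU5.LNK.NIL

set_option autoImplicit false

namespace Pool.Agent.DU5.TE.H12

open MvPowerSeries

/-- A series without monomials of exponents `< M` lies in every ideal containing the `X_i^M`. -/
theorem mem_box {F : Type} [Field F] {n M : ℕ} (I : Ideal (O F n))
    (hI : ∀ i, (X i : O F n) ^ M ∈ I) (h : O F n)
    (hh : ∀ α : Fin n →₀ ℕ, (∀ i, α i < M) → coeff α h = 0) : h ∈ I := by
  classical
  let P : (Fin n →₀ ℕ) → Fin n → Prop := fun α i => M ≤ α i ∧ ∀ j < i, α j < M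
  let g : Fin n → O F n := fun i α => if P α i then coeff α h else 0
  have hg : ∀ i α, coeff α (g i) = if P α i then coeff α h else 0 := fun i α => rfl
  have hsum : h = ∑ i, g i := by
    ext α
    rw [map_sum]
    simp only [hg]
    by_cases hα : ∀ i, α i < M
    · rw [hh α hα]
      simp
    · push Not at hα
      have hex : ∃ i, M ≤ α i := hα
      obtain ⟨i, hi, hmin⟩ := Set.exists_min_image {i : Fin n | M ≤ α i} id (Set.toFinite _) hex
      have hmin' : ∀ j < i, α j < M := by
        intro j hj
        by_contra hc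
        exact absurd (hmin j (not_lt.mp hc)) (not_le.mpr hj)
      rw [Finset.sum_eq_single i]
      · rw [if_pos ⟨hi, hmin'⟩]
      · intro j _ hj
        rw [if_neg]
        rintro ⟨h1, h2⟩
        rcases lt_or_gt_of_ne hj with h3 | h3
        · exact absurd (hmin' j h3) (not_lt.mpr h1)
        · exact absurd (h2 i h3) (not_lt.mpr hi)
      · intro h3
        exact absurd (Finset.mem_univ _) h3
  rw [hsum]
  refine Ideal.sum_mem _ fun i _ => ?_
  have hd : (X i : O F n) ^ M ∣ g i := by
    rw [X_pow_dvd_iff]
    intro α hα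
    rw [hg, if_neg]
    rintro ⟨h1, -⟩
    exact absurd hα (not_lt.mpr h1)
  exact Ideal.mem_of_dvd _ hd (hI i)

theorem smul_mk {F : Type} [Field F] {n : ℕ} (J : Ideal (O F n)) (c : F) (x : O F n) :
    c • (Ideal.Quotient.mk J x) = Ideal.Quotient.mk J (MvPowerSeries.C c * x) := by
  rw [← MvPowerSeries.smul_eq_C_mul]
  rfl

theorem ful : FulStatement := by
  classical
  intro k F _ _ _ n I
  by_cases htop : len k I = ⊤
  · rw [htop]; exact le_top
  set φ : O k n →+* O F n := MvPowerSeries.map (algebraMap k F) with hφ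
  set J : Ideal (O F n) := I.map φ with hJ
  obtain ⟨M, hM⟩ := ENat.ne_top_iff_exists.mp htop
  have hI : ∀ i, (X i : O k n) ^ M ∈ I := LNK.nil k n I M hM.symm.le
  have hJX : ∀ i, (X i : O F n) ^ M ∈ J := by
    intro i
    have := Ideal.mem_map_of_mem φ (hI i)
    rwa [map_pow, hφ, MvPowerSeries.map_X] at this
  have hfin : Module.Finite k (O k n ⧸ I) := by
    have : IsFiniteLength k (O k n ⧸ I) := Module.length_ne_top_iff.mp htop
    rw [isFiniteLength_iff_isNoetherian_isArtinian] at this
    have := this.1
    infer_instance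
  have hlen : len k I = (Module.finrank k (O k n ⧸ I) : ℕ∞) := by
    rw [len, Module.length_eq_finrank]
  let b := Module.finBasis k (O k n ⧸ I)
  choose e he using fun j => Ideal.Quotient.mk_surjective (b j)
  let v : Fin (Module.finrank k (O k n ⧸ I)) → (O F n ⧸ J) := fun j => Ideal.Quotient.mk J (φ (e j))
  have hbase : ∀ h : O k n, Ideal.Quotient.mk J (φ h) ∈ Submodule.span F (Set.range v) := by
    intro h
    have h1 : h - ∑ j, MvPowerSeries.C (b.repr (Ideal.Quotient.mk I h) j) * e j ∈ I := by
      rw [← Ideal.Quotient.eq_zero_iff_mem, map_sub, map_sum, sub_eq_zero]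
      conv_lhs => rw [← b.sum_repr (Ideal.Quotient.mk I h)]
      refine Finset.sum_congr rfl fun j _ => ?_
      rw [← he, smul_mk]
    have h2 := Ideal.mem_map_of_mem φ h1
    rw [map_sub, map_sum, ← Ideal.Quotient.eq_zero_iff_mem, map_sub, map_sum, sub_eq_zero] at h2
    rw [h2]
    refine Submodule.sum_mem _ fun j _ => ?_
    have h3 : Ideal.Quotient.mk J (φ (MvPowerSeries.C (b.repr (Ideal.Quotient.mk I h) j) * e j)) =
        algebraMap k F (b.repr (Ideal.Quotient.mk I h) j) • v j := by
      rw [smul_mk, map_mul, hφ, MvPowerSeries.map_C]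
    rw [h3]
    exact Submodule.smul_mem _ _ (Submodule.subset_span ⟨j, rfl⟩)
  have hspan : Submodule.span F (Set.range v) = ⊤ := by
    rw [eq_top_iff]
    rintro q -
    obtain ⟨h, rfl⟩ := Ideal.Quotient.mk_surjective q
    let B : Finset (Fin n →₀ ℕ) := (Fintype.piFinset fun _ : Fin n => Finset.range M).map
      Finsupp.equivFunOnFinite.symm.toEmbedding
    have hB : ∀ α, α ∈ B ↔ ∀ i, α i < M := by
      intro α
      simp only [B, Finset.mem_map_equiv, Equiv.symm_symm, Fintype.mem_piFinset, Finset.mem_range]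
      rfl
    let t : O F n := ∑ α ∈ B, monomial α (coeff α h)
    have ht : h - t ∈ J := by
      apply mem_box J hJX
      intro α hα
      rw [map_sub, map_sum, Finset.sum_eq_single α]
      · rw [coeff_monomial_same, sub_self]
      · intro β _ hβ
        rw [coeff_monomial_ne hβ.symm]
      · intro h4
        exact absurd ((hB α).mpr hα) h4
    have h5 : Ideal.Quotient.mk J h = Ideal.Quotient.mk J t := by
      rw [← sub_eq_zero, ← map_sub]
      exact Ideal.Quotient.eq_zero_iff_mem.mpr ht
    rw [h5, map_sum]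
    refine Submodule.sum_mem _ fun α _ => ?_
    have h6 : Ideal.Quotient.mk J (monomial α (coeff α h)) =
        coeff α h • Ideal.Quotient.mk J (φ (monomial α (1 : k))) := by
      rw [hφ, MvPowerSeries.map_monomial, map_one, smul_mk, ← monomial_zero_eq_C_apply,
        monomial_mul_monomial, zero_add, mul_one]
    rw [h6]
    exact Submodule.smul_mem _ _ (hbase _)
  have hfin' : Module.Finite F (O F n ⧸ J) :=
    ⟨⟨Finset.univ.image v, by rw [Finset.coe_image, Finset.coe_univ, Set.image_univ, hspan]⟩⟩
  change len F J ≤ _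
  rw [hlen, len, Module.length_eq_finrank]
  have := finrank_range_le_card (R := F) v
  rw [Set.finrank, hspan, finrank_top, Fintype.card_fin] at this
  exact_mod_cast this

end Pool.Agent.DU5.TE.H12
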