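import Pool.Agent.Lib.MP_524519_ag.DU5.TE.Iface

set_option autoImplicit false

namespace Pool.Agent.DU5.TE

open MvPowerSeries

theorem len_equiv {F R R' : Type} [Field F] [CommRing R] [CommRing R'] [Algebra F R] [Algebra F R']
    (e : R ≃ₐ[F] R') (I : Ideal R) : len F (I.map (e : R →+* R')) = len F I :=
  (LinearEquiv.length_eq (Ideal.quotientEquivAlg I (I.map (e : R →+* R')) e rfl).toLinearEquiv).symm

theorem len_map_ringEquiv {F : Type} [Field F] (Θ : O F 3 ≃+* PowerSeries (PC.R2 F))
    (hC : ∀ c : F, Θ (MvPowerSeries.C c) = PowerSeries.C (MvPowerSeries.C c))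
    (I : Ideal (O F 3)) : len F (I.map (Θ : O F 3 →+* PowerSeries (PC.R2 F))) = len F I := by
  have h : ∀ r : F, Θ (algebraMap F (O F 3) r) = algebraMap F (PowerSeries (PC.R2 F)) r := by
    intro r
    have h1 : algebraMap F (O F 3) r = MvPowerSeries.C r := by
      simp [MvPowerSeries.algebraMap_apply]
    have h2 : algebraMap F (PowerSeries (PC.R2 F)) r = PowerSeries.C (MvPowerSeries.C r) := by
      rw [PowerSeries.algebraMap_apply, MvPowerSeries.algebraMap_apply]
      rfl
    rw [h1, h2, hC]
  exact len_equiv (AlgEquiv.ofRingEquiv (f := Θ) h) I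

theorem te2 (hA : AlgStatement) (hI : IsoStatement) (hE : EvlStatement) (hO : OrdStatement)
    (hF : FulStatement) (hB : BcdStatement) (hS : LNK.SukStatement) : TE2Statement := by
  intro p _ k _ _ _ F _ _ D lam hP d f hd hdp hf hJ hMU
  obtain ⟨Θ, hC, hX, hc⟩ := hI F lam
  obtain ⟨hB1, hB2⟩ := hB k F lam
  obtain ⟨hS1, -, hS3, hS4, -⟩ := hS F F lam
  obtain ⟨-, -, hK3, hK4, -⟩ := hS k F lam
  set g₀ : O F 3 := bc k F (pderiv k 0 f) with hg₀
  set g₁ : O F 3 := bc k F (pderiv k 1 f) + MvPowerSeries.C lam * bc k F (pderiv k 2 f) with hg₁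
  set g₂ : O F 3 := bc k F (pderiv k 2 f) with hg₂
  have hlam : rs lam (MvPowerSeries.C lam : O F 3) = MvPowerSeries.C lam := by
    rw [← hc, hC]; simp
  have e0 : PowerSeries.constantCoeff (Θ g₀) = pderiv F 1 (rs lam f) := by
    rw [hc, hg₀, hB2, hK3]
  have e1 : PowerSeries.constantCoeff (Θ g₁) = pderiv F 0 (rs lam f) := by
    rw [hc, hg₁, (hS1 _ _).1, (hS1 _ _).2, hB2, hB2, hlam, hK4]
  have hMU' : len F (Ideal.span {PowerSeries.constantCoeff (Θ g₀),
      PowerSeries.constantCoeff (Θ g₁)}) = MU1 lam f := by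
    rw [e0, e1, Set.pair_comm]; rfl
  have hsp : ∀ a b c : O F 3, len F (Ideal.span {Θ a, Θ b, Θ c}) = len F (Ideal.span {a, b, c}) := by
    intro a b c
    rw [← len_map_ringEquiv Θ hC, Ideal.map_span]
    congr 2
    simp [Set.image_insert_eq]
  have hjac : (jac f).map (bc k F) = Ideal.span {g₀, g₁, g₂} := by
    rw [jac, Ideal.map_span]
    apply le_antisymm
    · rw [Ideal.span_le]
      rintro _ ⟨_, ⟨i, rfl⟩, rfl⟩
      fin_cases i
      · exact Ideal.subset_span (by simp [hg₀])
      · have : bc k F (pderiv k 1 f) = g₁ - MvPowerSeries.C lam * g₂ := by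
          rw [hg₁, hg₂]; ring
        simp only [Fin.mk_one, Fin.isValue, SetLike.mem_coe]
        rw [this]
        exact Ideal.sub_mem _ (Ideal.subset_span (by simp))
          (Ideal.mul_mem_left _ _ (Ideal.subset_span (by simp)))
      · exact Ideal.subset_span (by simp [hg₂])
    · rw [Ideal.span_le]
      have m : ∀ i, bc k F (pderiv k i f) ∈ Ideal.span (bc k F '' Set.range fun i => pderiv k i f) :=
        fun i => Ideal.subset_span ⟨_, ⟨i, rfl⟩, rfl⟩
      intro z hz
      simp only [Set.mem_insert_iff, Set.mem_singleton_iff] at hz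
      rcases hz with rfl | rfl | rfl
      · exact m 0
      · exact Ideal.add_mem _ (m 1) (Ideal.mul_mem_left _ _ (m 2))
      · exact m 2
  have hful : len F (Ideal.span {g₀, g₁, g₂}) ≤ len k (jac f) := by
    rw [← hjac]; exact hF k F 3 (jac f)
  have hcc : constantCoeff (bc k F f) = 0 := by
    have : constantCoeff f = 0 := by
      have := hf.low 0 (by simp; omega)
      simpa using this
    rw [bc, MvPowerSeries.constantCoeff_map, this, map_zero]
  have key := hA F (p - 1) hP.good (Θ g₀) (Θ g₁) (Θ (bc k F f)) (Θ g₂) (by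
      rw [hMU']
      have : MU1 lam f < (p : ℕ∞) := hMU
      have hp : 0 < p := (Fact.out : p.Prime).pos
      have h2 : ((p - 1 : ℕ) : ℕ∞) + 1 = p := by
        exact_mod_cast Nat.sub_add_cancel hp
      rw [← h2] at this
      exact Order.lt_add_one_iff_of_not_isMax (by simp [isMax_iff_eq_top]) |>.mp this)
    (by
      rw [hsp]
      exact ne_top_of_le_ne_top hJ hful)
    (by
      intro n hn hnF χ hχ h0 h1 h2
      set ψ : O F 3 →+* PowerSeries F := χ.comp (Θ : O F 3 →+* PowerSeries (PC.R2 F)) with hψ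
      have hψC : ∀ c : F, ψ (MvPowerSeries.C c) = PowerSeries.C c := by
        intro c
        have : (PowerSeries.C (MvPowerSeries.C c) : PowerSeries (PC.R2 F)) =
            wi F (PowerSeries.C c) := by
          simp [wi]
        simp only [hψ, RingHom.comp_apply, RingHom.coe_coe]
        rw [hC, this, hχ]
        exact (PowerSeries.expand n hn : PowerSeries F →ₐ[F] PowerSeries F).commutes c
      obtain ⟨hx, hev⟩ := hE F 3 ψ hψC
      have hψW : ψ (X 2) - PowerSeries.C lam * ψ (X 1) = PowerSeries.X ^ n := by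
        have : ψ (X 2 - MvPowerSeries.C lam * X 1) = PowerSeries.X ^ n := by
          have e : (PowerSeries.X : PowerSeries (PC.R2 F)) = wi F PowerSeries.X := by
            simp [wi]
          simp only [hψ, RingHom.comp_apply, RingHom.coe_coe]
          rw [hX, e, hχ]
          simp [PC.ex]
        rw [← this, map_sub, map_mul, hψC]
      have hd : ∀ i, pderiv F i (bc k F f) = bc k F (pderiv k i f) := fun i => hB1 i f
      have := hO F n hn hnF lam (fun i => ψ (X i)) (bc k F f) hx hψW hcc
        (by rw [hd, ← hev]; exact h0)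
        (by rw [hd, hd, ← hev]; exact h1)
        (by rw [hd, ← hev]; exact h2)
      rw [hd, ← hev, ← hev] at this
      exact this)
  rw [hsp, hsp, hMU'] at key
  have hee : ee lam f = len F (Ideal.span {g₀, g₁, bc k F f}) := by
    rw [ee]
    congr 2
    ext z
    simp only [Set.mem_insert_iff, Set.mem_singleton_iff]
    tauto
  rw [hee]
  exact key.trans (by gcongr)

end Pool.Agent.DU5.TE
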