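import Pool.Agent.Lib.MP_524519_ag.DU5.PC.NP
import Pool.Agent.Lib.MP_524519_ag.DU5.PC.WFC
import Pool.Agent.Lib.MP_524519_ag.DU5.LNK.H7.SUK
import Pool.Agent.Lib.MP_524519_ag.DU5.TR.H57.Chn
import Pool.Agent.Lib.MP_524519_ag.DU5.TE.H03.Evl
import Pool.Agent.Lib.MP_524519_ag.DU5.TE.H12.Ful
import Pool.Agent.Lib.MP_524519_ag.DU5.TE.H12.Te2
import Pool.Agent.Lib.MP_524519_ag.DU5.TE.H38.Ord
import Pool.Agent.Lib.MP_524519_ag.DU5.TE.H50.Bcd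
import Pool.Agent.Lib.MP_524519_ag.DU5.TE.H50.Spm
import Pool.Agent.Lib.MP_524519_ag.DU5.TE.H57.Cop
import Pool.Agent.Lib.MP_524519_ag.DU5.TE.H63.Alg
import Pool.Agent.Lib.MP_524519_ag.DU5.TE.H84.Iso

/-! Chapter TE2, assembly. -/

namespace Pool.Agent.DU5.TE

theorem te2All : TE2Statement :=
  te2 (alg (PC.np PC.wfc) cop spm) iso H03.evl (ord TR.H57.chn) H12.ful bcd LNK.suk

end Pool.Agent.DU5.TE
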